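import Mathlib
import Pool.Prelude.Def_F_8db9d53c
import Pool.Agent.R46.PkFree.Main

/-!
# MP_dfa28f_co: every even `k ≥ 8` belongs to the set `𝒦`

`calK` is the set of `k ≥ 7` for which some connected `P_k`-free graph has cop number larger than
`⌊(k - 1) / 2⌋`.
-/

set_option autoImplicit false

namespace Pool.Agent.Results.MP_dfa28f_co.EvenK

/-- `G` has no induced subgraph isomorphic to the path on `k` vertices. -/
def PathFree (k : ℕ) {V : Type} (G : SimpleGraph V) : Prop :=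
  IsEmpty (SimpleGraph.pathGraph k ↪g G)

/-- The set `𝒦` of the problem. -/
def calK : Set ℕ :=
  {k | 7 ≤ k ∧ ∃ (n : ℕ) (G : SimpleGraph (Fin n)), G.Connected ∧ PathFree k G ∧
    (k - 1) / 2 < N6ef48c04.copNumber G}

/-- For every `m ≥ 2` there is a connected `P_{2m+2}`-free graph with cop number at least `m + 1`;
hence every even `k ≥ 8` belongs to `𝒦`, and `𝒦` is infinite, in particular nonempty. -/
theorem result :
    (∀ m : ℕ, 2 ≤ m → ∃ (n : ℕ) (G : SimpleGraph (Fin n)), G.Connected ∧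
      PathFree (2 * m + 2) G ∧ m + 1 ≤ N6ef48c04.copNumber G) ∧
    (∀ k : ℕ, 8 ≤ k → Even k → k ∈ calK) ∧ calK.Infinite ∧ calK ≠ ∅ := by
  have h1 : ∀ m : ℕ, 2 ≤ m → ∃ (n : ℕ) (G : SimpleGraph (Fin n)), G.Connected ∧
      PathFree (2 * m + 2) G ∧ m + 1 ≤ N6ef48c04.copNumber G :=
    fun m hm => Pool.Agent.R46.PkFree.main m hm
  have h2 : ∀ k : ℕ, 8 ≤ k → Even k → k ∈ calK := by
    rintro k hk ⟨j, hj⟩
    obtain ⟨m, rfl⟩ : ∃ m, k = 2 * m + 2 := ⟨j - 1, by omega⟩
    obtain ⟨n, G, hc, hp, hcop⟩ := h1 m (by omega)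
    exact ⟨by omega, n, G, hc, hp, by omega⟩
  have h3 : calK.Infinite := by
    refine Set.infinite_of_injective_forall_mem (f := fun i : ℕ => 2 * i + 8) ?_ ?_
    · intro a b hab
      simp only at hab
      omega
    · intro i
      exact h2 _ (by omega) ⟨i + 4, by ring⟩
  refine ⟨h1, h2, h3, ?_⟩
  exact h3.nonempty.ne_empty

end Pool.Agent.Results.MP_dfa28f_co.EvenK
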